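import Pool.Agent.H74.AO.HStmts

set_option linter.unusedVariables false
set_option synthInstance.maxSize 100000

namespace AO

open MeasureTheory

theorem hba_in (B : Bxs) (n : ℕ) :
    MeasurableSet {t : (Fin 3 → ℝ) × (ℕ → ℕ) | B.In n t.1 t.2} := by
  have h : {t : (Fin 3 → ℝ) × (ℕ → ℕ) | B.In n t.1 t.2} =
      (⋂ c, {t | (CUR.qq (B.lo n c) : ℝ) < t.1 c} ∩ {t | t.1 c < (CUR.qq (B.hi n c) : ℝ)}) ∩
        ⋂ k, ⋂ v, {t | B.u n k v → t.2 k = v} := by
    ext t
    simp only [Bxs.In, Set.mem_ofPred_eq, Set.mem_inter_iff, Set.mem_iInter]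
  rw [h]
  refine MeasurableSet.inter (MeasurableSet.iInter fun c => ?_)
    (MeasurableSet.iInter fun k => MeasurableSet.iInter fun v => ?_)
  · have hc : Measurable (fun t : (Fin 3 → ℝ) × (ℕ → ℕ) => t.1 c) :=
      (measurable_pi_apply c).comp measurable_fst
    exact (measurableSet_lt measurable_const hc).inter (measurableSet_lt hc measurable_const)
  · by_cases hu : B.u n k v
    · have h2 : {t : (Fin 3 → ℝ) × (ℕ → ℕ) | B.u n k v → t.2 k = v} =
          (fun t : (Fin 3 → ℝ) × (ℕ → ℕ) => t.2 k) ⁻¹' {v} := by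
        ext t
        simp [hu]
      rw [h2]
      exact ((measurable_pi_apply k).comp measurable_snd) (measurableSet_singleton v)
    · have h2 : {t : (Fin 3 → ℝ) × (ℕ → ℕ) | B.u n k v → t.2 k = v} = Set.univ := by
        ext t
        simp [hu]
      rw [h2]
      exact MeasurableSet.univ

theorem ao_hba (hct : HCTStmt) : HBAStmt := by
  intro B
  let S : Set ((Fin 3 → ℝ) × (ℕ → ℕ)) := {t | ∀ n, ¬ B.In n t.1 t.2}
  have hS : MeasurableSet S := by
    have : S = ⋂ n, {t | B.In n t.1 t.2}ᶜ := by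
      ext t
      simp [S]
    rw [this]
    exact MeasurableSet.iInter fun n => (hba_in B n).compl
  let F : (Fin 3 → ℝ) × (ℕ → ℕ) → (Fin 4 → Rl) := fun t =>
    ![cutc (t.1 0), cutc (t.1 1), cutc (t.1 2), gc t.2]
  have hc : ∀ c : Fin 3, Measurable (fun t : (Fin 3 → ℝ) × (ℕ → ℕ) => cutc (t.1 c)) := fun c =>
    hct.1.comp ((measurable_pi_apply c).comp measurable_fst)
  have hg : Measurable (fun t : (Fin 3 → ℝ) × (ℕ → ℕ) => gc t.2) := by
    rw [measurable_pi_iff]
    intro j
    apply measurable_to_bool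
    have h : (fun t : (Fin 3 → ℝ) × (ℕ → ℕ) => gc t.2 j) ⁻¹' {true} =
        (fun t : (Fin 3 → ℝ) × (ℕ → ℕ) => t.2 (Nat.unpair j).1) ⁻¹' {(Nat.unpair j).2} := by
      ext t
      simp [gc]
    rw [h]
    exact ((measurable_pi_apply _).comp measurable_snd) (measurableSet_singleton _)
  have hF : Measurable F := by
    rw [measurable_pi_iff]
    intro i
    fin_cases i
    · exact hc 0
    · exact hc 1
    · exact hc 2
    · exact hg
  have h : {w : Fin 4 → Rl | ∃ (x : Fin 3 → ℝ) (u : ℕ → ℕ),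
      w 0 = cutc (x 0) ∧ w 1 = cutc (x 1) ∧ w 2 = cutc (x 2) ∧
      (∀ k v, w 3 (Nat.pair k v) = true ↔ u k = v) ∧ ∀ n, ¬ B.In n x u} = F '' S := by
    ext w
    constructor
    · rintro ⟨x, u, h0, h1, h2, h3, h4⟩
      refine ⟨(x, u), h4, ?_⟩
      funext i
      fin_cases i
      · exact h0.symm
      · exact h1.symm
      · exact h2.symm
      · funext j
        have h5 := h3 (Nat.unpair j).1 (Nat.unpair j).2
        rw [Nat.pair_unpair] at h5
        change gc u j = w 3 j
        simp only [gc]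
        rcases hw : w 3 j with _ | _
        · rw [hw] at h5
          simpa using h5
        · rw [hw] at h5
          simpa using h5
    · rintro ⟨⟨x, u⟩, hx, rfl⟩
      refine ⟨x, u, rfl, rfl, rfl, fun k v => ?_, hx⟩
      change gc u (Nat.pair k v) = true ↔ u k = v
      simp [gc]
  rw [h]
  exact hS.analyticSet_image hF

end AO
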