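import Pool.Agent.H74.AO.HStmts

set_option linter.unusedVariables false
set_option synthInstance.maxSize 100000

namespace AO

open MeasureTheory

theorem hct_inj : Function.Injective cutc := by
  intro x y hxy
  by_contra hne
  rcases lt_or_gt_of_ne hne with h | h
  · obtain ⟨q, h1, h2⟩ := exists_rat_btwn h
    obtain ⟨j, hj⟩ : ∃ j, CUR.qq j = q := ⟨Denumerable.eqv ℚ q, by simp [CUR.qq]⟩
    have h3 := congrFun hxy j
    simp only [cutc, hj, decide_eq_decide] at h3
    exact absurd (h3.2 h2) (not_lt.2 h1.le)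
  · obtain ⟨q, h1, h2⟩ := exists_rat_btwn h
    obtain ⟨j, hj⟩ : ∃ j, CUR.qq j = q := ⟨Denumerable.eqv ℚ q, by simp [CUR.qq]⟩
    have h3 := congrFun hxy j
    simp only [cutc, hj, decide_eq_decide] at h3
    exact absurd (h3.1 h2) (not_lt.2 h1.le)

theorem hct_meas : Measurable cutc := by
  rw [measurable_pi_iff]
  intro j
  apply measurable_to_bool
  have h : (fun x : ℝ => cutc x j) ⁻¹' {true} = Set.Ioi (CUR.qq j : ℝ) := by
    ext x
    simp [cutc]
  rw [h]
  exact measurableSet_Ioi

theorem ao_hct : HCTStmt := by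
  refine ⟨hct_meas, ?_⟩
  have h1 := hct_meas.measurableEmbedding hct_inj
  obtain ⟨g, hg, hg'⟩ := h1.exists_measurable_extend (g := (id : ℝ → ℝ)) measurable_id
    (fun _ => ⟨0⟩)
  exact ⟨g, hg, fun x => congrFun hg' x⟩

end AO
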