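import Pool.Agent.H74.AO.HStmts

set_option linter.unusedVariables false
set_option synthInstance.maxSize 100000

namespace AO

open MeasureTheory

theorem ao_hmg : HMGStmt := by
  intro α β _ _ _ _ f hf B hB
  have h : f ⁻¹' B = Prod.fst '' ({t : α × β | t.2 = f t.1} ∩ Prod.snd ⁻¹' B) := by
    ext x
    constructor
    · intro hx
      exact ⟨(x, f x), ⟨rfl, hx⟩, rfl⟩
    · rintro ⟨⟨y, z⟩, ⟨h1, h2⟩, h3⟩
      simp only [Set.mem_ofPred_eq] at h1
      simp only at h3
      subst h3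
      subst h1
      exact h2
  rw [h]
  refine MeasurableSet.image_of_measurable_injOn (hf.inter (measurable_snd hB)) measurable_fst ?_
  rintro ⟨x, y⟩ ⟨hx, _⟩ ⟨x', y'⟩ ⟨hx', _⟩ hxx
  simp only [Set.mem_ofPred_eq] at hx hx' hxx
  subst hxx
  rw [hx, hx']

end AO
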