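import Pool.Agent.H74.AO.HStmts

set_option linter.unusedVariables false
set_option synthInstance.maxSize 100000

namespace AO

open MeasureTheory

theorem ao_hnc (hnr : HNRStmt) (hct : HCTStmt) : HNCStmt := by
  intro Z hZ
  obtain ⟨H, hH⟩ := hnr Z hZ
  obtain ⟨hc, d, hd, hdc⟩ := hct
  have p : ∀ {k : ℕ} (i : Fin k), Measurable (fun v : Fin k → Rl => v i) := fun i =>
    measurable_pi_apply i
  have pd : ∀ {k : ℕ} (i : Fin k), Measurable (fun v : Fin k → Rl => d (v i)) := fun i =>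
    hd.comp (measurable_pi_apply i)
  refine ⟨fun X => H (d X), ?_, ?_, ?_, ?_, ?_, ?_, ?_, ?_, ?_⟩
  · intro x y h
    simp only [hdc] at h
    exact hH.bij.1 h
  · intro g
    obtain ⟨x, hx⟩ := hH.bij.2 g
    exact ⟨x, by simp only [hdc, hx]⟩
  · obtain ⟨f, hf, hf'⟩ := hH.mul
    have h : {x : Fin 3 → ℝ | H (d (cutc (x 0))) * H (d (cutc (x 1))) = H (d (cutc (x 2)))} =
        {x : Fin 3 → ℝ | f (x 0, x 1) = x 2} := by
      ext x
      simp only [hdc, Set.mem_ofPred_eq, ← hf']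
      exact hH.bij.1.eq_iff
    rw [h]
    exact measurableSet_eq_fun
      (hf.comp ((measurable_pi_apply 0).prodMk (measurable_pi_apply 1))) (measurable_pi_apply 2)
  · obtain ⟨f, hf, hf'⟩ := hH.mul
    have h : {x : Fin 3 → Rl | H (d (x 0)) * H (d (x 1)) = H (d (x 2))} =
        {x : Fin 3 → Rl | f (d (x 0), d (x 1)) = d (x 2)} := by
      ext x
      simp only [Set.mem_ofPred_eq, ← hf']
      exact hH.bij.1.eq_iff
    rw [h]
    exact measurableSet_eq_fun (hf.comp ((pd 0).prodMk (pd 1))) (pd 2)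
  · obtain ⟨f, hf, hf'⟩ := hH.mul
    refine ⟨fun v => cutc (f (d (v 0), d (v 1))), hc.comp (hf.comp ((pd 0).prodMk (pd 1))),
      fun v => ⟨⟨_, rfl⟩, ?_⟩⟩
    simp only [hdc, hf']
  · obtain ⟨f, hf, hf'⟩ := hH.inv
    refine ⟨fun v => cutc (f (d (v 0))), hc.comp (hf.comp (pd 0)), fun v => ⟨⟨_, rfl⟩, ?_⟩⟩
    simp only [hdc, hf']
  · intro i
    obtain ⟨f, hf, hf'⟩ := hH.gx i
    refine ⟨fun v => cutc (f (v 0, v 1)), hc.comp (hf.comp ((p 0).prodMk (p 1))),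
      fun v => ⟨_, rfl⟩, fun X s => ?_⟩
    simp only [hdc]
    exact hf' X s
  · obtain ⟨f, hf, hf'⟩ := hH.gt
    refine ⟨fun v => cutc (f (v 0, v 1, v 2)),
      hc.comp (hf.comp ((p 0).prodMk ((p 1).prodMk (p 2)))), fun v => ⟨_, rfl⟩, fun X Y n => ?_⟩
    simp only [hdc]
    exact hf' X Y n
  · obtain ⟨f, hf, hf'⟩ := hH.vs
    refine ⟨fun v => f (d (v 0), v 1), hf.comp ((pd 0).prodMk (p 1)), fun x => ?_⟩
    exact hf' (d x)

end AO
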